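import Pool.Agent.Q213.CC.Imp

/-!
# Power saving for nearly all cubic characters at all positions up to nearly the square of the length

Let `n ≥ 1` and `1 ≤ β < (2 n + 2) / (n + 2)` (so `β < 8 / 5` for `n = 3`, and `β → 2` for `n → ∞`). There
is `δ > 0` such that for all large `Q` there is a set `E` of at most `Q ^ (1 - δ)` primitive characters of
conductors `≤ Q` with: the bound of `C_n`, `|S_χ(M, H)| ≤ Q ^ ((1 - δ) / n)`, holds for all
`0 ≤ M ≤ Q ^ (β / n)`, all `H ≤ Q ^ (1 / n)` and all characters `χ` of all moduli `q ≤ Q` which are not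
induced by a character in `E`; in particular for all nonprincipal cubic characters of modulus `≤ Q`
which are not induced by one of the `Q ^ (1 - δ)` exceptional cubic primitive characters (the number of
the primitive cubic characters of conductor `≤ Q` is of the exact order `Q`).

More generally, for every `k ≥ 1` and `β ≥ 1` the number of the exceptional primitive characters is at
most `Q ^ ((max (k β) (2 n) + β - 1 - k) / n + ε)`; the first statement is the case `k = n + 1`.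

Proof.  The multiplicative large sieve is applied to the `k`-th powers of the short sums at all positions
and of all lengths; one large sum is surrounded by many large sums, so that the number of the pairs
(position, length) costs only `Q ^ ((β - 1) / n)`. The characters which are not primitive are
treated by Möbius inversion.
-/

set_option autoImplicit false

namespace Pool.Agent.Results.MP_081200_nt.AlmostAllConductors

open Finset

/-- The sum `S_χ(M, H)` of `χ(a)` over `M < a ≤ M + H`. -/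
noncomputable def charSum {q : ℕ} (χ : DirichletCharacter ℂ q) (M H : ℕ) : ℂ :=
  ∑ a ∈ Ioc M (M + H), χ (a : ZMod q)

/-- For all large `Q` there are primitive characters of conductors `f ≤ Q`, at most `Q ^ θ` in number
(`E f` is the set of those of conductor `f`), such that `|S_χ(M, H)| ≤ Q ^ ((1 - δ) / n)` holds for all
`0 ≤ M ≤ Q ^ (β / n)`, `0 ≤ H ≤ Q ^ (1 / n)` and for all characters `χ` of the moduli `q ≤ Q` which
are not induced by one of them. -/
def Saving (n : ℕ) (β θ δ : ℝ) : Prop :=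
  ∃ Q₀ : ℕ, ∀ Q : ℕ, Q₀ ≤ Q → ∃ E : (f : ℕ) → Finset (DirichletCharacter ℂ f),
    (∑ f ∈ Icc 1 Q, ((E f).card : ℝ)) ≤ (Q : ℝ) ^ θ ∧
    ∀ q : ℕ, 1 ≤ q → q ≤ Q → ∀ χ : DirichletCharacter ℂ q, χ.primitiveCharacter ∉ E χ.conductor →
      ∀ M H : ℕ, (M : ℝ) ≤ (Q : ℝ) ^ (β / n) → (H : ℝ) ≤ (Q : ℝ) ^ (1 / (n : ℝ)) →
        ‖charSum χ M H‖ ≤ (Q : ℝ) ^ ((1 - δ) / n)

theorem general (n k : ℕ) (hn : 1 ≤ n) (hk : 1 ≤ k) (β : ℝ) (hβ : 1 ≤ β) (ε : ℝ) (hε : 0 < ε) :
    ∃ δ : ℝ, 0 < δ ∧ Saving n β ((max (k * β) (2 * n) + β - 1 - k) / n + ε) δ :=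
  Pool.Agent.Q213.CC.ls_all n k hn hk β hβ ε hε

/-- **The bound of `C_n` outside a thin set of primitive characters, uniformly in the position.** -/
theorem result :
    (∀ n : ℕ, 1 ≤ n → ∀ β : ℝ, 1 ≤ β → β < (2 * n + 2) / (n + 2) →
      ∃ δ : ℝ, 0 < δ ∧ Saving n β (1 - δ) δ) ∧
    (∀ n k : ℕ, 1 ≤ n → 1 ≤ k → ∀ β : ℝ, 1 ≤ β → ∀ ε : ℝ, 0 < ε →
      ∃ δ : ℝ, 0 < δ ∧ Saving n β ((max (k * β) (2 * n) + β - 1 - k) / n + ε) δ) := by
  refine ⟨fun n hn β hβ1 hβ => ?_, fun n k hn hk β hβ ε hε => general n k hn hk β hβ ε hε⟩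
  have hn0 : (0 : ℝ) < n := by exact_mod_cast hn
  have hβ' : β * (n + 2) < 2 * n + 2 := by rwa [lt_div_iff₀ (by positivity)] at hβ
  have hβ2 : β < 2 := by nlinarith
  obtain ⟨θ, hθ⟩ : ∃ θ : ℝ, θ = (max (((n + 1 : ℕ) : ℝ) * β) (2 * n) + β - 1 - ((n + 1 : ℕ) : ℝ)) / n :=
    ⟨_, rfl⟩
  have hθ1 : θ < 1 := by
    rw [hθ, div_lt_one hn0]
    push_cast
    rcases max_cases (((n : ℝ) + 1) * β) (2 * n) with ⟨h, -⟩ | ⟨h, -⟩
    · rw [h]
      linarith
    · rw [h]
      linarith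
  obtain ⟨δ, hδ, h⟩ := general n (n + 1) hn (by omega) β hβ1 ((1 - θ) / 2) (by linarith)
  rw [← hθ] at h
  refine ⟨min δ ((1 - θ) / 2), lt_min hδ (by linarith), ?_⟩
  obtain ⟨Q₀, hQ⟩ := h
  refine ⟨Q₀ + 1, fun Q hQQ => ?_⟩
  obtain ⟨E, hE1, hE2⟩ := hQ Q (by omega)
  have hQ1 : (1 : ℝ) ≤ Q := by exact_mod_cast (by omega : 1 ≤ Q)
  refine ⟨E, hE1.trans (Real.rpow_le_rpow_of_exponent_le hQ1 ?_), fun q hq1 hq χ hχ M H hM hH =>
    (hE2 q hq1 hq χ hχ M H hM hH).trans (Real.rpow_le_rpow_of_exponent_le hQ1 ?_)⟩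
  · have := min_le_right δ ((1 - θ) / 2)
    linarith
  · exact div_le_div_of_nonneg_right (by linarith [min_le_left δ ((1 - θ) / 2)]) hn0.le

end Pool.Agent.Results.MP_081200_nt.AlmostAllConductors
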