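import Pool.Agent.Q213.CC.Main

/-!
# Power saving for short cubic character sums at positions with a few changed digits

`C_n` asks for `|S_χ(M, N)| ≤ c Q ^ ((1 - δ) / n + ε)` for all cubic characters of modulus `≤ Q`, all
positions `M` and all lengths `N ≤ Q ^ (1 / n)`. Let `0 ≤ N₀ < b ^ K` be an arbitrary integer and change
`r ≤ K / 2` of its `K` digits in base `b`. For all but a proportion `y ^ (- A)` of the choices of the
places the number `M` obtained has the following property for all `n`-scales: for all integers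
`y ≤ x ≤ exp (c r)` the bound `|S_χ(M, H)| ≤ x ^ ((1 - ε / 5) / n)` holds for all lengths
`H ≤ x ^ (1 / n)` and all nonprincipal cubic characters `χ` modulo all primes `p ≤ x` but at most
`x ^ (1 / 2 + ε)` of them. The same for arbitrary families of at most `x ^ a` nonprincipal characters
modulo each prime, with at most `x ^ (1 / 2 + a + ε)` exceptional primes.

Proof.  The sum over the primes `p ≤ x` of the `p`-periodic function, which is the average of
`(|S_χ(M, H)| / W) ^ (2 n)` over the lengths `H ≤ W = x ^ (1 / n)` and the characters, is close to the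
sum of its means over the residues modulo `p` for almost all changes of digits (`TH894.NE.law3`), and
the means are bounded by the moments of Davenport and Erdős (Weil's bound): `O (W ^ (- n) + p ^ (- 1 / 2))`.
A large sum implies that the sums of the neighbouring lengths are large.
-/

set_option autoImplicit false

namespace Pool.Agent.Results.MP_081200_nt.FewDigitPositions

open Finset

/-- The sum `S_χ(M, H)` of `χ(a)` over `M < a ≤ M + H`. -/
noncomputable def charSum {q : ℕ} (χ : DirichletCharacter ℂ q) (M H : ℕ) : ℂ :=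
  ∑ a ∈ Ioc M (M + H), χ (a : ZMod q)

open Classical in
/-- The primes `p ≤ x` for which some character `χ` modulo `p` with the property `T x p` has a sum
`|S_χ(M, H)| > x ^ ((1 - δ) / n)` of a length `H ≤ x ^ (1 / n)`. -/
noncomputable def exceptionalPrimes (T : ℕ → (p : ℕ) → DirichletCharacter ℂ p → Prop) (n : ℕ)
    (δ : ℝ) (x M : ℕ) : Finset ℕ :=
  (range (x + 1)).filter (fun p => p.Prime ∧ ∃ χ : DirichletCharacter ℂ p, T x p χ ∧
    ∃ H : ℕ, (H : ℝ) ≤ (x : ℝ) ^ (1 / (n : ℝ)) ∧ (x : ℝ) ^ ((1 - δ) / n) < ‖charSum χ M H‖)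

open Classical in
theorem mem_exceptionalPrimes (T : ℕ → (p : ℕ) → DirichletCharacter ℂ p → Prop) (n : ℕ)
    (δ : ℝ) (x M p : ℕ) : p ∈ exceptionalPrimes T n δ x M ↔ p ∈ range (x + 1) ∧ p.Prime ∧
    ∃ χ : DirichletCharacter ℂ p, T x p χ ∧
    ∃ H : ℕ, (H : ℝ) ≤ (x : ℝ) ^ (1 / (n : ℝ)) ∧ (x : ℝ) ^ ((1 - δ) / n) < ‖charSum χ M H‖ := by
  unfold exceptionalPrimes
  rw [mem_filter]

/-- The character is cubic and nonprincipal. -/
def Cubic (_ p : ℕ) (χ : DirichletCharacter ℂ p) : Prop := χ ≠ 1 ∧ χ ^ 3 = 1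

/-- The digit number `i` (counted from the right, beginning with `0`) of `n` in base `b`. -/
def digit (b i n : ℕ) : ℕ := n / b ^ i % b

/-- The number which arises from the number `N` with at most `K` digits in base `b`, if for every `i ∈ S`
the digit number `i` is replaced by `f i`. -/
def change (b K N : ℕ) (f : ℕ → ℕ) (S : Finset ℕ) : ℕ :=
  ∑ i ∈ range K, (if i ∈ S then f i else digit b i N) * b ^ i

open Classical in
/-- The number of the choices of `r` of the `K` positions for which the number obtained from `N` by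
changing the digits at the chosen positions (according to `f`) does not have the property `E`. -/
noncomputable def exceptions (b K r N : ℕ) (f : ℕ → ℕ) (E : ℕ → Prop) : ℕ :=
  ((powersetCard r (range K)).filter (fun S => ¬ E (change b K N f S))).card

lemma cubic_card (p : ℕ) (hp : p.Prime) (X : Finset (DirichletCharacter ℂ p))
    (hX : ∀ χ ∈ X, χ ^ 3 = 1) : X.card ≤ 3 := by
  classical
  have : Fact p.Prime := ⟨hp⟩
  obtain ⟨e⟩ := MulChar.mulEquiv_units (ZMod p) ℂ
  have h1 : X.card ≤ ((univ : Finset (ZMod p)ˣ).filter (fun u => u ^ 3 = 1)).card := by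
    rw [← card_image_of_injective X e.injective]
    refine card_le_card ?_
    intro u hu
    rw [mem_image] at hu
    obtain ⟨χ, hχ, rfl⟩ := hu
    rw [mem_filter]
    exact ⟨mem_univ _, by rw [← map_pow, hX χ hχ, map_one]⟩
  exact h1.trans (IsCyclic.card_pow_eq_one_le (by norm_num))

theorem exists_cubic_set : ∃ Y : (p : ℕ) → Finset (DirichletCharacter ℂ p), ∀ p : ℕ, p.Prime →
    (Y p).card ≤ 3 ∧ ∀ χ : DirichletCharacter ℂ p, χ ∈ Y p ↔ χ ≠ 1 ∧ χ ^ 3 = 1 := by
  classical
  have h : ∀ p : ℕ, ∃ Y : Finset (DirichletCharacter ℂ p), p.Prime →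
      Y.card ≤ 3 ∧ ∀ χ : DirichletCharacter ℂ p, χ ∈ Y ↔ χ ≠ 1 ∧ χ ^ 3 = 1 := by
    intro p
    by_cases hp : p.Prime
    · have : Fact p.Prime := ⟨hp⟩
      obtain ⟨Y, hY⟩ := (Set.toFinite {χ : DirichletCharacter ℂ p | χ ≠ 1 ∧ χ ^ 3 = 1}).exists_finset
      exact ⟨Y, fun _ => ⟨cubic_card p hp Y fun χ hχ => ((hY χ).1 hχ).2, hY⟩⟩
    · exact ⟨∅, fun h => absurd h hp⟩
  choose Y hY using h
  exact ⟨Y, hY⟩

/-- **Power saving at positions with a few changed digits.** -/
theorem result (b : ℕ) (hb : 2 ≤ b) (A : ℝ) : ∃ c : ℝ, 0 < c ∧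
    ∀ n : ℕ, 2 ≤ n → ∀ ε : ℝ, 0 < ε → ∃ y₀ : ℕ,
    ∀ K r y : ℕ, 2 * r ≤ K → y₀ ≤ y → ∀ N : ℕ, N < b ^ K →
    ∀ f : ℕ → ℕ, (∀ j, f j < b ∧ f j ≠ digit b j N) →
    ((exceptions b K r N f (fun M => ∀ x : ℕ, y ≤ x → (x : ℝ) ≤ Real.exp (c * r) →
        ((exceptionalPrimes Cubic n (ε / 5) x M).card : ℝ) ≤ (x : ℝ) ^ (1 / 2 + ε)) : ℝ) ≤
      (y : ℝ) ^ (-A) * (K.choose r : ℝ)) ∧
    (∀ a : ℝ, 0 ≤ a → ∀ X : ℕ → (p : ℕ) → Finset (DirichletCharacter ℂ p),
      (∀ x p : ℕ, y ≤ x → p.Prime → ((X x p).card : ℝ) ≤ (x : ℝ) ^ a ∧ ∀ χ ∈ X x p, χ ≠ 1) →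
      (exceptions b K r N f (fun M => ∀ x : ℕ, y ≤ x → (x : ℝ) ≤ Real.exp (c * r) →
        ((exceptionalPrimes (fun x p χ => χ ∈ X x p) n (ε / 5) x M).card : ℝ) ≤
          (x : ℝ) ^ (1 / 2 + a + ε)) : ℝ) ≤
      (y : ℝ) ^ (-A) * (K.choose r : ℝ)) := by
  classical
  obtain ⟨c, hc, h⟩ := Pool.Agent.Q213.CC.few b hb A
  refine ⟨c, hc, fun n hn ε hε => ?_⟩
  obtain ⟨y₁, h1⟩ := h n hn (ε / 5) (by positivity)
  have hev : ∀ᶠ x : ℕ in Filter.atTop, (3 : ℝ) ≤ (x : ℝ) ^ (ε / 5) := by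
    have h1 : Filter.Tendsto (fun x : ℝ => x ^ (ε / 5)) Filter.atTop Filter.atTop :=
      tendsto_rpow_atTop (by positivity)
    exact (h1.comp tendsto_natCast_atTop_atTop).eventually (Filter.eventually_ge_atTop _)
  obtain ⟨y₂, h2⟩ := Filter.eventually_atTop.1 hev
  refine ⟨y₁ + y₂ + 1, fun K r y hrK hy N hN f hf => ⟨?_, fun a ha X hX => ?_⟩⟩
  · obtain ⟨Y, hY⟩ := exists_cubic_set
    have h3 := h1 K r y hrK (by omega) N hN f hf (ε / 5) (by positivity) (fun _ p => Y p) ?_
    · refine le_trans ?_ h3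
      unfold exceptions
      refine Nat.cast_le.2 (card_le_card ?_)
      intro S hS
      have hS' := mem_filter.1 hS
      refine mem_filter.2 ⟨hS'.1, fun hcon => hS'.2 fun x hx hxr => ?_⟩
      have h4 := hcon x hx hxr
      have h5 : exceptionalPrimes Cubic n (ε / 5) x (change b K N f S) ⊆
          Pool.Agent.Q213.CC.bad n (ε / 5) Y x (Pool.Agent.TH894.SM.change b K N f S) := by
        intro p hp
        obtain ⟨hp1, hp2, χ, hχ, H, hH1, hH2⟩ := (mem_exceptionalPrimes _ _ _ _ _ _).1 hp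
        exact mem_filter.2 ⟨hp1, hp2, χ, ((hY p hp2).2 χ).2 hχ, H, hH1, hH2⟩
      have h6 : 1 / 2 + ε / 5 + 4 * (ε / 5) = 1 / 2 + ε := by ring
      rw [h6] at h4
      exact (Nat.cast_le.2 (card_le_card h5)).trans h4
    · intro x p hx hp
      refine ⟨?_, fun χ hχ => (((hY p hp).2 χ).1 hχ).1⟩
      refine le_trans ?_ (h2 x (by omega))
      exact_mod_cast (hY p hp).1
  · have h3 := h1 K r y hrK (by omega) N hN f hf a ha X hX
    refine le_trans ?_ h3
    unfold exceptions
    refine Nat.cast_le.2 (card_le_card ?_)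
    intro S hS
    have hS' := mem_filter.1 hS
    refine mem_filter.2 ⟨hS'.1, fun hcon => hS'.2 fun x hx hxr => ?_⟩
    have h4 := hcon x hx hxr
    have h5 : exceptionalPrimes (fun x p χ => χ ∈ X x p) n (ε / 5) x (change b K N f S) ⊆
        Pool.Agent.Q213.CC.bad n (ε / 5) (X x) x (Pool.Agent.TH894.SM.change b K N f S) := by
      intro p hp
      obtain ⟨hp1, hp2, χ, hχ, H, hH1, hH2⟩ := (mem_exceptionalPrimes _ _ _ _ _ _).1 hp
      exact mem_filter.2 ⟨hp1, hp2, χ, hχ, H, hH1, hH2⟩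
    have hx1 : (1 : ℝ) ≤ x := by exact_mod_cast (by omega : 1 ≤ x)
    refine (Nat.cast_le.2 (card_le_card h5)).trans (h4.trans ?_)
    exact Real.rpow_le_rpow_of_exponent_le hx1 (by linarith)

end Pool.Agent.Results.MP_081200_nt.FewDigitPositions
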