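import Pool.Agent.Q331.CM.Bad
import Pool.Agent.Q331.DRS

/-!
# Power saving for short sums of ALL nonprincipal characters to ALL moduli near the multiples of almost every real number

Let `n ≥ 1`, `1 ≤ β < 4 / 3` and `0 < ϑ < 1`. There is `c > 0` such that for all large `Q`, for all real
`y ∈ [Q ^ (1 - ϑ), 2 Q ^ (1 - ϑ)]` outside a set of measure at most `Q ^ (1 - ϑ - c)` and for all `k ≤ Q ^ ϑ` with at
most `Q ^ (ϑ - c)` exceptions, ALL moduli `q` with `|q - k y| ≤ Q ^ c` are such that the bound of `C_n`,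
`|S_χ(M, H)| ≤ Q ^ ((1 - c) / n)`, holds for ALL nonprincipal characters `χ` modulo `q`, primitive or not (in
particular for all nonprincipal cubic characters), all integers `M` with `|M| ≤ Q ^ (β / n)` and all
`H ≤ Q ^ (1 / n)`.

Proof. A character of small conductor has small sums. The number of the primitive characters of conductor `≤ F` with a
large sum is at most `F Q ^ (-s)`, for all `F` between `Q ^ ((1 - s) / n)` and `8 Q`: the large sieve is applied to the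
`k`-th powers of the sums, where `k` depends on `F`. So few moduli `q ≤ 4 Q` are multiples of a conductor of such a
character. The count of the multiples of real numbers near a given set of integers is from the starting files
(`Pool.Agent.H438R2.DL`) and from `Pool.Agent.Q319.DR` (helper319), the large sieve for powers from
`Pool.Agent.Q213.CC` (helper213).

From Mathlib: `DirichletCharacter ℂ q`: the Dirichlet characters modulo `q` (`1` is the principal one);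
`Finset.Ioc M N`: the integers `a` with `M < a ≤ N`; `volume`: the Lebesgue measure.
-/

set_option autoImplicit false

namespace Pool.Agent.Results.MP_081200_nt.ModuliAtRealMultiples

open Finset MeasureTheory

/-- The sum `S_χ(M, H)` of `χ(a)` over the integers `a` with `M < a ≤ M + H`. -/
noncomputable def charSum {q : ℕ} (χ : DirichletCharacter ℂ q) (M : ℤ) (H : ℕ) : ℂ :=
  ∑ a ∈ Ioc M (M + H), χ (a : ZMod q)

/-- The bound of `C_n` with the exponent `(1 - c) / n` holds for all nonprincipal characters modulo `q`, at the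
positions `|M| ≤ Q ^ (β / n)` and for the lengths `H ≤ Q ^ (1 / n)`. -/
def Saving (n : ℕ) (β c : ℝ) (Q q : ℕ) : Prop :=
  ∀ χ : DirichletCharacter ℂ q, χ ≠ 1 → ∀ (M : ℤ) (H : ℕ), |(M : ℝ)| ≤ (Q : ℝ) ^ (β / n) →
    (H : ℝ) ≤ (Q : ℝ) ^ (1 / (n : ℝ)) → ‖charSum χ M H‖ ≤ (Q : ℝ) ^ ((1 - c) / n)

open Classical in
/-- The number of the `k` with `1 ≤ k ≤ K` for which not all natural numbers `q` at a distance of at most `w` from
`k y` have the property `P`. -/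
noncomputable def exceptions (K : ℝ) (y w : ℝ) (P : ℕ → Prop) : ℕ :=
  ((Icc 1 ⌊K⌋₊).filter (fun k : ℕ => ∃ q : ℕ, |(q : ℝ) - k * y| ≤ w ∧ ¬ P q)).card

open Pool.Agent.Q213.CC

lemma charSum_eq {q : ℕ} (χ : DirichletCharacter ℂ q) (M : ℤ) (H : ℕ) :
    charSum χ M H = ∑ b ∈ range H, χ ((M : ZMod q) + 1 + (b : ZMod q)) := by
  unfold charSum
  refine sum_nbij' (fun a : ℤ => (a - M - 1).toNat) (fun b : ℕ => M + 1 + (b : ℤ)) ?_ ?_ ?_ ?_ ?_
  · intro a ha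
    rw [mem_Ioc] at ha
    rw [mem_range]
    omega
  · intro b hb
    rw [mem_range] at hb
    rw [mem_Ioc]
    omega
  · intro a ha
    rw [mem_Ioc] at ha
    omega
  · intro b hb
    omega
  · intro a ha
    rw [mem_Ioc] at ha
    congr 1
    have h1 : a = M + 1 + (((a - M - 1).toNat : ℕ) : ℤ) := by omega
    calc (a : ZMod q) = ((M + 1 + (((a - M - 1).toNat : ℕ) : ℤ) : ℤ) : ZMod q) := by rw [← h1]
      _ = _ := by push_cast; ring

lemma charSum_nat {q : ℕ} (χ : DirichletCharacter ℂ q) (m H : ℕ) : charSum χ m H = cs χ m H := by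
  rw [charSum_eq, cs_eq]
  refine sum_congr rfl fun b _ => ?_
  push_cast
  ring_nf

lemma charSum_neg {q : ℕ} (χ : DirichletCharacter ℂ q) (m H : ℕ) (h : H + 1 ≤ m) :
    charSum χ (-(m : ℤ)) H = χ (-1) * cs χ (m - H - 1) H := by
  rw [charSum_eq, cs_eq, mul_sum, ← sum_range_reflect]
  refine sum_congr rfl fun b hb => ?_
  rw [mem_range] at hb
  rw [← map_mul]
  congr 1
  have e1 : ((H - 1 - b : ℕ) : ZMod q) = (H : ZMod q) - 1 - b := by
    rw [Nat.cast_sub (by omega), Nat.cast_sub (by omega)]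
    push_cast
    ring
  have e2 : ((m - H - 1 + 1 : ℕ) : ZMod q) = (m : ZMod q) - H := by
    rw [show m - H - 1 + 1 = m - H by omega, Nat.cast_sub (by omega)]
  rw [e1, e2]
  push_cast
  ring

lemma charSum_add {q : ℕ} (χ : DirichletCharacter ℂ q) (M : ℤ) (H₁ H₂ : ℕ) :
    charSum χ M (H₁ + H₂) = charSum χ M H₁ + charSum χ (M + H₁) H₂ := by
  rw [charSum_eq, charSum_eq, charSum_eq, sum_range_add]
  congr 1
  refine sum_congr rfl fun b _ => ?_
  congr 1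
  push_cast
  ring

lemma charSum_le {q : ℕ} (χ : DirichletCharacter ℂ q) (hχ : χ ≠ 1) (X W : ℕ) (B : ℝ)
    (hB : ∀ m h : ℕ, m ≤ X → h ≤ W → ‖cs χ m h‖ ≤ B) (M : ℤ) (H : ℕ) (hM : M.natAbs ≤ X) (hH : H ≤ W) :
    ‖charSum χ M H‖ ≤ 2 * B := by
  have hB0 : 0 ≤ B := (norm_nonneg _).trans (hB 0 0 (by omega) (by omega))
  have h0 : χ (0 : ZMod q) = 0 := by
    rcases eq_or_ne q 1 with h1 | h1
    · exfalso
      subst h1
      exact hχ (Subsingleton.elim _ _)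
    · have : Nontrivial (ZMod q) := by
        rcases Nat.eq_zero_or_pos q with h2 | h2
        · subst h2
          exact inferInstanceAs (Nontrivial ℤ)
        · have : Fact (1 < q) := ⟨by omega⟩
          infer_instance
      exact MulChar.map_zero χ
  rcases le_or_gt 0 M with hM0 | hM0
  · obtain ⟨m, rfl⟩ := Int.eq_ofNat_of_zero_le hM0
    rw [charSum_nat]
    have := hB m H (by simpa using hM) hH
    linarith
  · obtain ⟨m, hm⟩ : ∃ m : ℕ, M = -(m : ℤ) := ⟨M.natAbs, by omega⟩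
    subst hm
    have hmX : m ≤ X := by simpa using hM
    have hm1 : 1 ≤ m := by omega
    have hneg : ∀ h : ℕ, h ≤ W → h + 1 ≤ m → ‖charSum χ (-(m : ℤ)) h‖ ≤ B := by
      intro h hh hhm
      rw [charSum_neg χ m h hhm, norm_mul]
      calc ‖χ (-1)‖ * ‖cs χ (m - h - 1) h‖ ≤ 1 * B :=
            mul_le_mul (χ.norm_le_one _) (hB _ _ (by omega) hh) (norm_nonneg _) zero_le_one
        _ = B := one_mul _
    rcases le_or_gt (H + 1) m with h1 | h1
    · exact (hneg H hH h1).trans (by linarith)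
    · have e1 : H = (m - 1) + (1 + (H - m)) := by omega
      have e2 : charSum χ (-(m : ℤ) + ((m - 1 : ℕ) : ℤ)) 1 = 0 := by
        rw [charSum_eq, sum_range_one]
        have : ((-(m : ℤ) + ((m - 1 : ℕ) : ℤ) : ℤ) : ZMod q) + 1 + ((0 : ℕ) : ZMod q) = 0 := by
          rw [show (-(m : ℤ) + ((m - 1 : ℕ) : ℤ) : ℤ) = -1 by omega]
          push_cast
          ring
        rw [this, h0]
      rw [e1, charSum_add, charSum_add, e2, zero_add]
      have e3 : (-(m : ℤ) + ((m - 1 : ℕ) : ℤ) + ((1 : ℕ) : ℤ)) = ((0 : ℕ) : ℤ) := by omega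
      rw [e3, charSum_nat]
      have h2 := hneg (m - 1) (by omega) (by omega)
      have h3 := hB 0 (H - m) (by omega) (by omega)
      refine (norm_add_le _ _).trans (by linarith)

open Classical in
/-- a modulus without exceptional conductors -/
lemma good {n : ℕ} (hn : 1 ≤ n) {β c δ : ℝ} {Q q : ℕ} (hQ : 1 ≤ Q) (hq : 1 ≤ q)
    (hτ : 2 * ((q.divisors.card : ℝ) * (Q : ℝ) ^ ((1 - δ) / n)) ≤ (Q : ℝ) ^ ((1 - c) / n))
    (h : ¬ ∃ f, 2 ≤ f ∧ f ∣ q ∧
      (exc ⌊(Q : ℝ) ^ (β / n)⌋₊ ⌊(Q : ℝ) ^ (1 / (n : ℝ))⌋₊ ((Q : ℝ) ^ ((1 - δ) / n)) f).Nonempty) :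
    Saving n β c Q q := by
  intro χ hχ M H hM hH
  have : NeZero q := ⟨by omega⟩
  have hc0 : χ.conductor ≠ 0 := DirichletCharacter.conductor_ne_zero χ
  have hc1 : χ.conductor ≠ 1 := fun h1 => hχ (DirichletCharacter.eq_one_iff_conductor_eq_one.2 h1)
  have hprim : ∀ m h' : ℕ, m ≤ ⌊(Q : ℝ) ^ (β / n)⌋₊ → h' ≤ ⌊(Q : ℝ) ^ (1 / (n : ℝ))⌋₊ →
      ‖cs χ.primitiveCharacter m h'‖ ≤ (Q : ℝ) ^ ((1 - δ) / n) := by
    intro m h' hm hh'
    by_contra hcon
    rw [not_le] at hcon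
    apply h
    refine ⟨χ.conductor, by omega, DirichletCharacter.conductor_dvd_level χ, χ.primitiveCharacter, ?_⟩
    unfold exc prim
    rw [mem_filter, mem_filter]
    exact ⟨⟨mem_univ _, χ.primitiveCharacter_isPrimitive⟩, m, h', hm, hh', hcon⟩
  refine le_trans (charSum_le χ hχ ⌊(Q : ℝ) ^ (β / n)⌋₊ ⌊(Q : ℝ) ^ (1 / (n : ℝ))⌋₊
    ((q.divisors.card : ℝ) * (Q : ℝ) ^ ((1 - δ) / n)) ?_ M H ?_ ?_) hτ
  · intro m h' hm hh'
    exact cs_imprim_le (by omega) χ m h' _ (by positivity)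
      (fun M' H' hM' hH' => hprim M' H' (hM'.trans hm) (hH'.trans hh'))
  · apply Nat.le_floor
    rw [← Int.cast_natCast, Int.natCast_natAbs, Int.cast_abs]
    exact hM
  · exact Nat.le_floor hH

/-- Let `n ≥ 1`, `1 ≤ β < 4 / 3` and `0 < ϑ < 1`. There are `c > 0` and `Q₀` such that for all `Q ≥ Q₀` there is a set
`E` of real numbers of measure at most `Q ^ (1 - ϑ - c)` such that for all real `y` with
`Q ^ (1 - ϑ) ≤ y ≤ 2 Q ^ (1 - ϑ)` outside `E` and for all `k ≤ Q ^ ϑ` with at most `Q ^ (ϑ - c)` exceptions, ALL moduli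
`q` with `|q - k y| ≤ Q ^ c` satisfy the bound of `C_n`: `|S_χ(M, H)| ≤ Q ^ ((1 - c) / n)` for ALL nonprincipal
characters `χ` modulo `q`, all integers `M` with `|M| ≤ Q ^ (β / n)` and all `H ≤ Q ^ (1 / n)`. -/
theorem result (n : ℕ) (hn : 1 ≤ n) (β : ℝ) (hβ : 1 ≤ β) (hβ' : β < 4 / 3) (ϑ : ℝ) (hϑ : 0 < ϑ) (hϑ1 : ϑ < 1) :
    ∃ c : ℝ, 0 < c ∧ ∃ Q₀ : ℕ, ∀ Q : ℕ, Q₀ ≤ Q → ∃ E : Set ℝ, MeasurableSet E ∧
      volume E ≤ ENNReal.ofReal ((Q : ℝ) ^ (1 - ϑ - c)) ∧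
      ∀ y : ℝ, (Q : ℝ) ^ (1 - ϑ) ≤ y → y ≤ 2 * (Q : ℝ) ^ (1 - ϑ) → y ∉ E →
        (exceptions ((Q : ℝ) ^ ϑ) y ((Q : ℝ) ^ c) (Saving n β c Q) : ℝ) ≤ (Q : ℝ) ^ (ϑ - c) := by
  classical
  have hn0 : (0 : ℝ) < n := by exact_mod_cast hn
  obtain ⟨δ, κ, C, hδ, hκ, N₀, hN₀⟩ := Pool.Agent.Q331.CM.moduli n hn β hβ hβ'
  obtain ⟨c₁, hc₁, hc₁1, hc₁κ, hmain⟩ := Pool.Agent.Q331.DRS.mult ϑ hϑ hϑ1 κ hκ
  obtain ⟨N₁, hN₁⟩ := hmain C
  obtain ⟨η, hη⟩ : ∃ η : ℝ, η = δ / (8 * n) := ⟨_, rfl⟩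
  have hη0 : 0 < η := by rw [hη]; positivity
  obtain ⟨C', hC'0, hC'⟩ := H353.divisor_bound_real η hη0
  have hev : ∀ᶠ N : ℕ in Filter.atTop, 2 * C' * 4 ^ η ≤ (N : ℝ) ^ η := by
    have h1 : Filter.Tendsto (fun x : ℝ => x ^ η) Filter.atTop Filter.atTop := tendsto_rpow_atTop hη0
    exact (h1.comp tendsto_natCast_atTop_atTop).eventually (Filter.eventually_ge_atTop _)
  obtain ⟨N₂, hN₂⟩ := Filter.eventually_atTop.1 hev
  obtain ⟨c, hcd⟩ : ∃ c : ℝ, c = min c₁ (δ / 2) := ⟨_, rfl⟩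
  have hc : 0 < c := by rw [hcd]; exact lt_min hc₁ (by positivity)
  have hcc₁ : c ≤ c₁ := by rw [hcd]; exact min_le_left _ _
  have hcδ : c ≤ δ / 2 := by rw [hcd]; exact min_le_right _ _
  refine ⟨c, hc, N₀ + N₁ + N₂ + 1, fun Q hQ => ?_⟩
  have hQ1 : (1 : ℝ) ≤ Q := by exact_mod_cast (by omega : 1 ≤ Q)
  have hQ0 : (0 : ℝ) < Q := by linarith
  have hgood : ∀ q : ℕ, q ∈ Icc 1 (4 * Q) → ¬ Saving n β c Q q → ∃ f, 2 ≤ f ∧ f ∣ q ∧
      (exc ⌊(Q : ℝ) ^ (β / n)⌋₊ ⌊(Q : ℝ) ^ (1 / (n : ℝ))⌋₊ ((Q : ℝ) ^ ((1 - δ) / n)) f).Nonempty := by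
    intro q hq hs
    rw [mem_Icc] at hq
    by_contra hcon
    refine hs (good hn (by omega) hq.1 ?_ hcon)
    have h1 : (q.divisors.card : ℝ) ≤ C' * (4 ^ η * (Q : ℝ) ^ η) := by
      refine (hC' q (by omega)).trans ?_
      rw [← Real.mul_rpow (by norm_num) hQ0.le]
      apply mul_le_mul_of_nonneg_left _ hC'0.le
      apply Real.rpow_le_rpow (Nat.cast_nonneg _) _ hη0.le
      exact_mod_cast hq.2
    have h2 := hN₂ Q (by omega)
    calc 2 * ((q.divisors.card : ℝ) * (Q : ℝ) ^ ((1 - δ) / n))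
        ≤ 2 * (C' * (4 ^ η * (Q : ℝ) ^ η) * (Q : ℝ) ^ ((1 - δ) / n)) := by
          apply mul_le_mul_of_nonneg_left _ (by norm_num)
          exact mul_le_mul_of_nonneg_right h1 (by positivity)
      _ = (2 * C' * 4 ^ η) * ((Q : ℝ) ^ η * (Q : ℝ) ^ ((1 - δ) / n)) := by ring
      _ ≤ (Q : ℝ) ^ η * ((Q : ℝ) ^ η * (Q : ℝ) ^ ((1 - δ) / n)) :=
          mul_le_mul_of_nonneg_right h2 (by positivity)
      _ = (Q : ℝ) ^ (η + (η + (1 - δ) / n)) := by
          rw [Real.rpow_add hQ0, Real.rpow_add hQ0]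
      _ ≤ (Q : ℝ) ^ ((1 - c) / n) := by
          apply Real.rpow_le_rpow_of_exponent_le hQ1
          rw [hη, show δ / (8 * n) + (δ / (8 * n) + (1 - δ) / n) = (1 - 3 * δ / 4) / n by field_simp; ring]
          apply div_le_div_of_nonneg_right _ hn0.le
          linarith
  have hcount : (((Icc 1 (4 * Q)).filter (fun q => ¬ Saving n β c Q q)).card : ℝ) ≤ C * (Q : ℝ) ^ (1 - κ) := by
    refine le_trans ?_ (hN₀ Q (by omega))
    apply Nat.cast_le.2
    apply card_le_card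
    intro q hq
    simp only [mem_filter] at hq ⊢
    exact ⟨hq.1, hgood q hq.1 hq.2⟩
  obtain ⟨E, hE1, hE2, hE3⟩ := hN₁ Q (by omega) (fun q => ¬ Saving n β c Q q)
    (le_trans (le_of_eq (by congr!)) hcount)
  refine ⟨E, hE1, hE2.trans (ENNReal.ofReal_le_ofReal
    (Real.rpow_le_rpow_of_exponent_le hQ1 (by linarith))), fun y hy1 hy2 hyE => ?_⟩
  refine le_trans ?_ ((hE3 y hy1 hy2 hyE).trans (Real.rpow_le_rpow_of_exponent_le hQ1 (by linarith)))
  unfold exceptions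
  apply Nat.cast_le.2
  apply card_le_card
  intro k hk
  simp only [mem_filter] at hk ⊢
  obtain ⟨hk1, q, hq1, hq2⟩ := hk
  exact ⟨hk1, q, hq1.trans (Real.rpow_le_rpow_of_exponent_le hQ1 hcc₁), hq2⟩

end Pool.Agent.Results.MP_081200_nt.ModuliAtRealMultiples
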