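import Pool.Agent.Q56.WL.Cubic

/-!
# Power saving for short cubic character sums at ALL positions in windows near powers with non-integral exponents

`C_n` asks for `|S_χ(M, N)| ≤ c Q ^ ((1 - δ) / n + ε)` for all cubic characters of modulus `≤ Q`, all
positions `M` and all lengths `N ≤ Q ^ (1 / n)`. Let `e > 1` be not an integer and `w ≠ 0`, `β` real. For all `i ≤ X` but a
proportion `1 / y ^ A`, EVERY integer `M` in the window of length `y ^ V` around `β + w i ^ e` has the following property for all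
integers `y ≤ x ≤ X ^ c`, and for all `n ≥ 2` and `ε > 0` (with `c` independent of `n` and `ε`): the bound
`|S_χ(M, H)| ≤ x ^ ((1 - ε / 5) / n)` holds for all lengths `H ≤ x ^ (1 / n)` and all nonprincipal cubic characters `χ` modulo
all primes `p ≤ x` but at most `x ^ (1 / 2 + ε)` of them. If `V > 1` the windows contain (for `x = y`) many complete systems
of residues modulo each of these primes. The same for arbitrary families of at most `x ^ a` nonprincipal characters modulo each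
prime, with at most `x ^ (1 / 2 + a + ε)` exceptional primes.

Proof. The sum over the primes `p ≤ x` of the `p`-periodic function, which is the average of `(|S_χ(M, H)| / W) ^ (2 n)` over
the lengths `H ≤ W = x ^ (1 / n)` and the characters, is close to the sum of its means over the residues modulo `p` for all `M`
in the windows (high moments over all integer points of the windows, `Pool.Agent.Q56.WL.gen`, with van der Corput's estimates
of exponential sums), and the means are bounded by the moments of Davenport and Erdős (Weil's bound). A large sum implies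
that the sums of the neighbouring lengths are large (`Pool.Agent.Q213.CC.card_bad`).
-/

set_option autoImplicit false

namespace Pool.Agent.Results.MP_081200_nt.NearPowers

open Finset Pool.Agent.Q56.WL

/-- The sum `S_χ(M, H)` of `χ(a)` over `M < a ≤ M + H`. -/
noncomputable def charSum {q : ℕ} (χ : DirichletCharacter ℂ q) (M H : ℕ) : ℂ :=
  ∑ a ∈ Ioc M (M + H), χ (a : ZMod q)

open Classical in
/-- The primes `p ≤ x` for which some character `χ` modulo `p` with the property `T x p` has a sum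
`|S_χ(M, H)| > x ^ ((1 - δ) / n)` of a length `H ≤ x ^ (1 / n)`. -/
noncomputable def exceptionalPrimes (T : ℕ → (p : ℕ) → DirichletCharacter ℂ p → Prop) (n : ℕ)
    (δ : ℝ) (x M : ℕ) : Finset ℕ :=
  (range (x + 1)).filter (fun p => p.Prime ∧ ∃ χ : DirichletCharacter ℂ p, T x p χ ∧
    ∃ H : ℕ, (H : ℝ) ≤ (x : ℝ) ^ (1 / (n : ℝ)) ∧ (x : ℝ) ^ ((1 - δ) / n) < ‖charSum χ M H‖)

/-- The character is cubic and nonprincipal. -/
def Cubic (_ p : ℕ) (χ : DirichletCharacter ℂ p) : Prop := χ ≠ 1 ∧ χ ^ 3 = 1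

open Classical in
/-- The number of the indices `i` in `{1, ..., X}` for which not all nonnegative integers `M` with
`|M - (β + w * i ^ e)| ≤ W` have the property `P`. -/
noncomputable def exceptions (X : ℕ) (e w β W : ℝ) (P : ℕ → Prop) : ℕ :=
  ((Icc 1 X).filter (fun i : ℕ => ∃ M : ℕ, |(M : ℝ) - (β + w * (i : ℝ) ^ e)| ≤ W ∧ ¬ P M)).card

lemma exceptions_mono {X : ℕ} {e w β W : ℝ} {P P' : ℕ → Prop} (h : ∀ m, P' m → P m) :
    exceptions X e w β W P ≤ badIndices X e w β W P' := by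
  have e1 : exceptions X e w β W P = badIndices X e w β W P := rfl
  rw [e1]
  exact badIndices_mono h

open Classical in
theorem mem_exceptionalPrimes (T : ℕ → (p : ℕ) → DirichletCharacter ℂ p → Prop) (n : ℕ)
    (δ : ℝ) (x M p : ℕ) : p ∈ exceptionalPrimes T n δ x M ↔ p ∈ range (x + 1) ∧ p.Prime ∧
    ∃ χ : DirichletCharacter ℂ p, T x p χ ∧
    ∃ H : ℕ, (H : ℝ) ≤ (x : ℝ) ^ (1 / (n : ℝ)) ∧ (x : ℝ) ^ ((1 - δ) / n) < ‖charSum χ M H‖ := by
  unfold exceptionalPrimes
  rw [mem_filter]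

lemma cubic_card (p : ℕ) (hp : p.Prime) (X : Finset (DirichletCharacter ℂ p))
    (hX : ∀ χ ∈ X, χ ^ 3 = 1) : X.card ≤ 3 := by
  classical
  have : Fact p.Prime := ⟨hp⟩
  obtain ⟨e⟩ := MulChar.mulEquiv_units (ZMod p) ℂ
  have h1 : X.card ≤ ((univ : Finset (ZMod p)ˣ).filter (fun u => u ^ 3 = 1)).card := by
    rw [← card_image_of_injective X e.injective]
    refine card_le_card ?_
    intro u hu
    rw [mem_image] at hu
    obtain ⟨χ, hχ, rfl⟩ := hu
    rw [mem_filter]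
    exact ⟨mem_univ _, by rw [← map_pow, hX χ hχ, map_one]⟩
  exact h1.trans (IsCyclic.card_pow_eq_one_le (by norm_num))

theorem exists_cubic_set : ∃ Y : (p : ℕ) → Finset (DirichletCharacter ℂ p), ∀ p : ℕ, p.Prime →
    (Y p).card ≤ 3 ∧ ∀ χ : DirichletCharacter ℂ p, χ ∈ Y p ↔ χ ≠ 1 ∧ χ ^ 3 = 1 := by
  classical
  have h : ∀ p : ℕ, ∃ Y : Finset (DirichletCharacter ℂ p), p.Prime →
      Y.card ≤ 3 ∧ ∀ χ : DirichletCharacter ℂ p, χ ∈ Y ↔ χ ≠ 1 ∧ χ ^ 3 = 1 := by
    intro p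
    by_cases hp : p.Prime
    · have : Fact p.Prime := ⟨hp⟩
      obtain ⟨Y, hY⟩ := (Set.toFinite {χ : DirichletCharacter ℂ p | χ ≠ 1 ∧ χ ^ 3 = 1}).exists_finset
      exact ⟨Y, fun _ => ⟨cubic_card p hp Y fun χ hχ => ((hY χ).1 hχ).2, hY⟩⟩
    · exact ⟨∅, fun h => absurd h hp⟩
  choose Y hY using h
  exact ⟨Y, hY⟩

/-- **Power saving at all positions in windows near powers.** -/
theorem result (e w : ℝ) (he : 1 < e) (hk : ∀ k : ℕ, e ≠ k) (hw : w ≠ 0) (A V : ℕ) : ∃ c : ℝ, 0 < c ∧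
    ∀ n : ℕ, 2 ≤ n → ∀ ε : ℝ, 0 < ε → ∃ y₀ : ℕ, ∀ (β : ℝ) (X y : ℕ), y₀ ≤ y →
    ((exceptions X e w β ((y : ℝ) ^ V) (fun M => ∀ x : ℕ, y ≤ x → (x : ℝ) ≤ (X : ℝ) ^ c →
        ((exceptionalPrimes Cubic n (ε / 5) x M).card : ℝ) ≤ (x : ℝ) ^ (1 / 2 + ε)) : ℝ) ≤
      1 / (y : ℝ) ^ A * X) ∧
    (∀ a : ℝ, 0 ≤ a → ∀ F : ℕ → (p : ℕ) → Finset (DirichletCharacter ℂ p),
      (∀ x p : ℕ, y ≤ x → p.Prime → ((F x p).card : ℝ) ≤ (x : ℝ) ^ a ∧ ∀ χ ∈ F x p, χ ≠ 1) →
      (exceptions X e w β ((y : ℝ) ^ V) (fun M => ∀ x : ℕ, y ≤ x → (x : ℝ) ≤ (X : ℝ) ^ c →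
        ((exceptionalPrimes (fun x p χ => χ ∈ F x p) n (ε / 5) x M).card : ℝ) ≤
          (x : ℝ) ^ (1 / 2 + a + ε)) : ℝ) ≤
      1 / (y : ℝ) ^ A * X) := by
  classical
  obtain ⟨c, hc, h⟩ := few_near he hk hw A V
  refine ⟨c, hc, fun n hn ε hε => ?_⟩
  obtain ⟨y₁, h1⟩ := h n hn (ε / 5) (by positivity)
  have hev : ∀ᶠ x : ℕ in Filter.atTop, (3 : ℝ) ≤ (x : ℝ) ^ (ε / 5) := by
    have h1 : Filter.Tendsto (fun x : ℝ => x ^ (ε / 5)) Filter.atTop Filter.atTop :=
      tendsto_rpow_atTop (by positivity)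
    exact (h1.comp tendsto_natCast_atTop_atTop).eventually (Filter.eventually_ge_atTop _)
  obtain ⟨y₂, h2⟩ := Filter.eventually_atTop.1 hev
  refine ⟨y₁ + y₂ + 1, fun β X y hy => ⟨?_, fun a ha F hF => ?_⟩⟩
  · obtain ⟨Y, hY⟩ := exists_cubic_set
    have h3 := h1 β X y (by omega) (ε / 5) (by positivity) (fun _ p => Y p) ?_
    · refine le_trans (Nat.cast_le.2 (exceptions_mono ?_)) h3
      intro M hcon x hx hxr
      have h4 := hcon x hx hxr
      have h5 : exceptionalPrimes Cubic n (ε / 5) x M ⊆ Pool.Agent.Q213.CC.bad n (ε / 5) Y x M := by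
        intro p hp
        obtain ⟨hp1, hp2, χ, hχ, H, hH1, hH2⟩ := (mem_exceptionalPrimes _ _ _ _ _ _).1 hp
        exact mem_filter.2 ⟨hp1, hp2, χ, ((hY p hp2).2 χ).2 hχ, H, hH1, hH2⟩
      have h6 : 1 / 2 + ε / 5 + 4 * (ε / 5) = 1 / 2 + ε := by ring
      rw [h6] at h4
      exact (Nat.cast_le.2 (card_le_card h5)).trans h4
    · intro x p hx hp
      refine ⟨?_, fun χ hχ => (((hY p hp).2 χ).1 hχ).1⟩
      refine le_trans ?_ (h2 x (by omega))
      exact_mod_cast (hY p hp).1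
  · have h3 := h1 β X y (by omega) a ha F hF
    refine le_trans (Nat.cast_le.2 (exceptions_mono ?_)) h3
    intro M hcon x hx hxr
    have h4 := hcon x hx hxr
    have h5 : exceptionalPrimes (fun x p χ => χ ∈ F x p) n (ε / 5) x M ⊆ Pool.Agent.Q213.CC.bad n (ε / 5) (F x) x M := by
      intro p hp
      obtain ⟨hp1, hp2, χ, hχ, H, hH1, hH2⟩ := (mem_exceptionalPrimes _ _ _ _ _ _).1 hp
      exact mem_filter.2 ⟨hp1, hp2, χ, hχ, H, hH1, hH2⟩
    have hx1 : (1 : ℝ) ≤ x := by exact_mod_cast (by omega : 1 ≤ x)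
    refine (Nat.cast_le.2 (card_le_card h5)).trans (h4.trans ?_)
    exact Real.rpow_le_rpow_of_exponent_le hx1 (by linarith)

end Pool.Agent.Results.MP_081200_nt.NearPowers
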